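import Mathlib
import Pool.Agent.H812.Tm.Spec1

/-!
SCoord and SDt (helper282 for helper812).
-/

set_option autoImplicit false

open Real Filter Topology
open scoped ContDiff

namespace Pool.Agent.H282.Tm

open Pool.Agent.W811.Stu Pool.Agent.H812.Tm

lemma r2_pos {z : ℝ} (h : |z| < 1) : 0 < 1 - z ^ 2 := by
  have h1 := abs_lt.1 h
  nlinarith

lemma Bf_sq {δ z : ℝ} (h : |z| < 1) : Bf δ z ^ 2 * (1 - z ^ 2) = 1 + δ ^ 2 - z ^ 2 := by
  have h1 := r2_pos h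
  unfold Bf
  rw [Real.sq_sqrt (by apply div_nonneg _ h1.le; nlinarith [sq_nonneg δ])]
  field_simp

lemma Bf_pos {δ z : ℝ} (h : |z| < 1) : 0 < Bf δ z := by
  have h1 := r2_pos h
  unfold Bf
  apply Real.sqrt_pos.2
  apply div_pos _ h1
  nlinarith [sq_nonneg δ]

lemma ze_z (δ : ℝ) (v : ℝ × ℝ) : (ze δ v).z = v.1 := rfl
lemma ze_y (δ : ℝ) (v : ℝ × ℝ) : (ze δ v).y = Bf δ v.1 * cos v.2 := rfl
lemma ze_x (δ : ℝ) (v : ℝ × ℝ) :
    (ze δ v).x = Bf δ v.1 * (v.1 * cos v.2 + √(1 - v.1 ^ 2) * sin v.2) := rfl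

lemma isOpen_U : IsOpen U := by
  unfold U
  exact isOpen_lt (by fun_prop) continuous_const

lemma onS_ze (δ : ℝ) (v : ℝ × ℝ) (hv : v ∈ U) : OnS δ (ze δ v) := by
  have h1 := r2_pos hv
  have h2 := Bf_sq (δ := δ) hv
  have h3 : √(1 - v.1 ^ 2) ^ 2 = 1 - v.1 ^ 2 := Real.sq_sqrt h1.le
  have h4 := Real.sin_sq_add_cos_sq v.2
  unfold OnS
  rw [ze_z, ze_y, ze_x]
  linear_combination Bf δ v.1 ^ 2 * sin v.2 ^ 2 * h3 + h2 + Bf δ v.1 ^ 2 * (1 - v.1 ^ 2) * h4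

lemma exists_angle {a b : ℝ} (h : a ^ 2 + b ^ 2 = 1) : ∃ ϑ, cos ϑ = a ∧ sin ϑ = b := by
  have hn : ‖(⟨a, b⟩ : ℂ)‖ = 1 := by
    rw [Complex.norm_def, Complex.normSq_mk, Real.sqrt_eq_one]
    linarith
  have hne : (⟨a, b⟩ : ℂ) ≠ 0 := by
    intro h0
    rw [h0, norm_zero] at hn
    exact zero_ne_one hn
  refine ⟨Complex.arg ⟨a, b⟩, ?_, ?_⟩
  · rw [Complex.cos_arg hne, hn, div_one]
  · rw [Complex.sin_arg, hn, div_one]

lemma surj_ze (δ : ℝ) (p : P3) (hp : OnS δ p) (hz : |p.z| < 1) : ∃ ϑ, ze δ (p.z, ϑ) = p := by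
  have h1 := r2_pos hz
  have h2 := Bf_sq (δ := δ) hz
  have h3 : √(1 - p.z ^ 2) ^ 2 = 1 - p.z ^ 2 := Real.sq_sqrt h1.le
  have hr : 0 < √(1 - p.z ^ 2) := Real.sqrt_pos.2 h1
  have hB := Bf_pos (δ := δ) hz
  obtain ⟨ϑ, hc, hs⟩ := exists_angle (a := p.y / Bf δ p.z)
    (b := (p.x - p.z * p.y) / (Bf δ p.z * √(1 - p.z ^ 2))) (by
      rw [div_pow, div_pow, mul_pow, h3]
      have hB2 : Bf δ p.z ^ 2 ≠ 0 := (pow_pos hB 2).ne'
      field_simp
      unfold OnS at hp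
      linear_combination hp - h2)
  refine ⟨ϑ, ?_⟩
  unfold ze
  ext
  · rfl
  · show Bf δ p.z * cos ϑ = p.y
    rw [hc]; field_simp
  · show Bf δ p.z * (p.z * cos ϑ + √(1 - p.z ^ 2) * sin ϑ) = p.x
    rw [hc, hs]
    field_simp
    ring

lemma smooth_ze (δ : ℝ) : ContDiffOn ℝ ∞ (fun v => toL (ze δ v)) U := by
  have hr : ContDiffOn ℝ ∞ (fun v : ℝ × ℝ => √(1 - v.1 ^ 2)) U := by
    apply ContDiffOn.sqrt
    · fun_prop
    · intro v hv
      exact (r2_pos hv).ne'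
  have hB : ContDiffOn ℝ ∞ (fun v : ℝ × ℝ => Bf δ v.1) U := by
    unfold Bf
    apply ContDiffOn.sqrt
    · apply ContDiffOn.div
      · fun_prop
      · fun_prop
      · intro v hv
        exact (r2_pos hv).ne'
    · intro v hv
      have h1 := r2_pos hv
      have h2 : 0 < 1 + δ ^ 2 - v.1 ^ 2 := by nlinarith [sq_nonneg δ]
      exact (div_pos h2 h1).ne'
  have h1 : ContDiffOn ℝ ∞ (fun v : ℝ × ℝ => v.1) U := by fun_prop
  have hc : ContDiffOn ℝ ∞ (fun v : ℝ × ℝ => cos v.2) U := by fun_prop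
  have hs : ContDiffOn ℝ ∞ (fun v : ℝ × ℝ => sin v.2) U := by fun_prop
  unfold toL
  exact h1.prodMk ((hB.mul hc).prodMk (hB.mul ((h1.mul hc).add (hr.mul hs))))

lemma hasDer_ze (δ : ℝ) (v : ℝ × ℝ) (hv : v ∈ U) : HasDer (fun t => ze δ (v.1, t))
    ⟨0, -gX (ze δ v) / √(1 - v.1 ^ 2), gB (ze δ v) / √(1 - v.1 ^ 2)⟩ v.2 := by
  have h1 := r2_pos hv
  have hr : 0 < √(1 - v.1 ^ 2) := Real.sqrt_pos.2 h1
  have h3 : √(1 - v.1 ^ 2) ^ 2 = 1 - v.1 ^ 2 := Real.sq_sqrt h1.le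
  refine ⟨?_, ?_, ?_⟩
  · exact hasDerivAt_const _ _
  · have h4 : HasDerivAt (fun t => Bf δ v.1 * cos t) (Bf δ v.1 * -sin v.2) v.2 :=
      (Real.hasDerivAt_cos v.2).const_mul _
    have e : -gX (ze δ v) / √(1 - v.1 ^ 2) = Bf δ v.1 * -sin v.2 := by
      unfold gX
      rw [ze_z, ze_y, ze_x]
      field_simp
      ring
    show HasDerivAt (fun t => Bf δ v.1 * cos t) (-gX (ze δ v) / √(1 - v.1 ^ 2)) v.2
    rw [e]
    exact h4
  · have h4 : HasDerivAt (fun t => Bf δ v.1 * (v.1 * cos t + √(1 - v.1 ^ 2) * sin t))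
        (Bf δ v.1 * (v.1 * -sin v.2 + √(1 - v.1 ^ 2) * cos v.2)) v.2 :=
      (((Real.hasDerivAt_cos v.2).const_mul v.1).add
        ((Real.hasDerivAt_sin v.2).const_mul _)).const_mul _
    have e : gB (ze δ v) / √(1 - v.1 ^ 2) =
        Bf δ v.1 * (v.1 * -sin v.2 + √(1 - v.1 ^ 2) * cos v.2) := by
      unfold gB
      rw [ze_z, ze_y, ze_x]
      rw [div_eq_iff hr.ne']
      linear_combination -(Bf δ v.1 * cos v.2) * h3
    show HasDerivAt (fun t => Bf δ v.1 * (v.1 * cos t + √(1 - v.1 ^ 2) * sin t))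
      (gB (ze δ v) / √(1 - v.1 ^ 2)) v.2
    rw [e]
    exact h4

theorem tSCoord : SCoord := by
  intro δ
  refine ⟨onS_ze δ, surj_ze δ, smooth_ze δ, ?_, hasDer_ze δ⟩
  intro z ϑ
  unfold ze
  simp only [Real.cos_add_two_pi, Real.sin_add_two_pi]

lemma sm_stepR : ContDiff ℝ ∞ fun v => toL (stepR (ofL v)) := by
  unfold toL stepR ofL; simp only; fun_prop

lemma sm_stepS : ContDiff ℝ ∞ fun v => toL (stepS (ofL v)) := by
  unfold toL stepS ofL; simp only; fun_prop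

lemma sm_iter (k : ℕ) : ContDiff ℝ ∞ fun v => toL (stepR^[k] (ofL v)) := by
  induction k with
  | zero => exact contDiff_id
  | succ k ih =>
    have := sm_stepR.comp ih
    simp only [Function.comp_def, ofL_toL, ← Function.iterate_succ_apply' stepR] at this
    exact this

lemma sm_orb (d : ℕ → ℕ) (m : ℕ) : ContDiff ℝ ∞ fun v => toL (orb d (ofL v) m) := by
  induction m with
  | zero => exact contDiff_id
  | succ m ih =>
    have := sm_stepS.comp ((sm_iter (d m)).comp ih)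
    simp only [Function.comp_def, ofL_toL] at this
    exact this

lemma smooth_Yf (δ : ℝ) (d : ℕ → ℕ) (m : ℕ) : ContDiffOn ℝ ∞ (Yf δ d m) U := by
  have h1 := (sm_orb d m).comp_contDiffOn (smooth_ze δ)
  have h2 : ContDiff ℝ ∞ fun w : ℝ × ℝ × ℝ => w.2.1 := by fun_prop
  exact h2.comp_contDiffOn h1

theorem tSDt : SDt := by
  intro δ d m
  refine ⟨smooth_Yf δ d m, ?_, ?_⟩
  · intro z ϑ
    unfold Yf
    rw [(tSCoord δ).2.2.2.1 z ϑ]
  · intro v hv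
    have hd : DifferentiableAt ℝ (Yf δ d m) v :=
      ((smooth_Yf δ d m).differentiableOn (by simp)).differentiableAt (isOpen_U.mem_nhds hv)
    have h1 : HasDerivAt (fun t : ℝ => (v.1, t)) ((0 : ℝ), (1 : ℝ)) v.2 :=
      (hasDerivAt_const _ _).prodMk (hasDerivAt_id _)
    have h2 : HasDerivAt (fun t => Yf δ d m (v.1, t)) (fderiv ℝ (Yf δ d m) v (0, 1)) v.2 := by
      have h3 : HasFDerivAt (Yf δ d m) (fderiv ℝ (Yf δ d m) v) (v.1, v.2) := hd.hasFDerivAt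
      exact h3.comp_hasDerivAt v.2 h1
    have h4 := ((hasDer_ze δ v hv).orb d m).2.1
    have h5 : HasDerivAt (fun t => Yf δ d m (v.1, t))
        (dorb d (ze δ v) ⟨0, -gX (ze δ v) / √(1 - v.1 ^ 2), gB (ze δ v) / √(1 - v.1 ^ 2)⟩ m).y v.2 := h4
    unfold dt
    rw [h2.unique h5]
    have h6 : (⟨0, -gX (ze δ v) / √(1 - v.1 ^ 2), gB (ze δ v) / √(1 - v.1 ^ 2)⟩ : P3) =
        lc (-1 / √(1 - v.1 ^ 2)) (fV (ze δ v)) 0 (fV (ze δ v)) := by
      unfold lc fV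
      ext
      · simp
      · simp only; ring
      · simp only; ring
    rw [h6, dorb_lc]
    unfold lc Vy
    simp only
    ring

end Pool.Agent.H282.Tm
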